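import Mathlib
import Pool.Agent.H17.PChar.Minors

/-!
The excluded minors of the class `M'` (regular matroids together with the matroids whose
p-characteristic set is `{v ≥ 3 : v ≠ 6}`) are not just `U_{2,5}`, `U_{3,5}`, `F_7`, `F_7^*`.
The definitions are in `Pool.Agent.H17.PChar.Defs`.
-/

namespace Pool.Agent.Results.MP_cf16d9_co.NearRegularExcludedMinor

open Pool.Agent.H17.PChar

/-- There is an excluded minor of `M'` which is isomorphic to none of `U_{2,5}`, `U_{3,5}`, `F_7`,
`F_7^*`; it can be chosen with at most seven elements and representable over every field with at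
least three elements. -/
theorem result : ∃ K : Matroid (Fin 7), IsExcludedMinor K ∧
    (∀ (F : Type) [Field F], (∃ t : F, t ≠ 0 ∧ t ≠ 1) → Representable F K) ∧
    ¬ IsUniform 2 5 K ∧ ¬ IsUniform 3 5 K ∧ ¬ IsFano K ∧ ¬ IsFano K✶ :=
  main

end Pool.Agent.Results.MP_cf16d9_co.NearRegularExcludedMinor
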